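import Pool.Agent.Q260.SL.Stm2
import Pool.Agent.Q24.DJ.Com

/-!
# Project SL (helper260), job AZ: from `Zk k + a` to its derivative
-/

set_option autoImplicit false

namespace Pool.Agent.Q285.SL

open Complex Filter Topology Metric Set
open Pool.Agent.Q260.SL
open Pool.Agent.H24R2.JP (HH XX Om)
open Pool.Agent.Q260.DJ (Cl NZ Ok EE)
open Pool.Agent.Q24.DJ (one_le_log ee_le)

theorem t_AZ (h1 : S_ZA) (h2 : S_HM) (h3 : S_CA) (h4 : Pool.Agent.Q260.DJ.S_LB)
    (h5 : Pool.Agent.Q260.DJ.S_HA) : S_AZ := by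
  intro k a
  obtain ⟨hHM, C3, T3, hC3, hT3, hrr, -, -⟩ := h2
  obtain ⟨_, C2, T2, hC2, hT2, hb⟩ := h5
  obtain ⟨C1, T1, hC1, hT1, hl⟩ := h4 (fun z => Za k a z * HM z) (h3 k a)
  refine ⟨4 * C1, max (max T1 T2) (max (max T3 5) (Real.exp (8 * (C2 + C3)))), by linarith,
    hT1.trans ((le_max_left _ _).trans (le_max_left _ _)), ?_⟩
  intro T θ δ hT hθ hθ1 hok hnz z hz1 hz2 hz3 hzero
  have a1 : T1 ≤ T := ((le_max_left _ _).trans (le_max_left _ _)).trans hT
  have a2 : T2 ≤ T := ((le_max_right _ _).trans (le_max_left _ _)).trans hT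
  have a4 : T3 ≤ T := (((le_max_left _ _).trans (le_max_left _ _)).trans (le_max_right _ _)).trans hT
  have a5 : 5 ≤ T := (((le_max_right _ _).trans (le_max_left _ _)).trans (le_max_right _ _)).trans hT
  have a3 : Real.exp (8 * (C2 + C3)) ≤ T := ((le_max_right _ _).trans (le_max_right _ _)).trans hT
  have hT3' : 3 ≤ T := hT1.trans a1
  have a6 : 8 * (C2 + C3) ≤ Real.log T := (Real.le_log_iff_exp_le (by linarith)).2 a3
  have hzp : 0 < z.im := by rw [hz1]; linarith
  have hnz' : NZ (fun z => Za k a z * HM z) θ T 4 := by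
    intro w hw1 hw2 hw3
    have := (abs_le.1 hw3).1
    exact mul_ne_zero (hnz w hw1 hw2 hw3) (hHM w (by linarith)).1
  obtain ⟨hz4, _, hz5⟩ := hl T θ δ a1 hθ hθ1 hok.1 hok.2.1 hnz' z hz1 hz2 (by linarith)
  have hz6 := (hb z (by linarith [hok.1]) (by linarith) (by rw [hz1]; exact a2)).1
  have hz7 := (hrr z (by rw [abs_le]; constructor <;> linarith [hok.1]) (by rw [hz1]; exact a4)).1
  have e1 := ee_le hC1 (by linarith : C1 ≤ 4 * C1) hT3' hok
  have e2 : C1 / (4 * C1) * δ * Real.log T ≤ Real.log T / 8 := by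
    have : C1 / (4 * C1) = 1 / 4 := by
      have : C1 ≠ 0 := by positivity
      field_simp
    rw [this]
    nlinarith [hok.2.1, one_le_log hT3']
  have hZd : HasDerivAt (Za k a) (Zk (k + 1) z) z := (h1.1 k z hzp).2.1.add_const a
  have hZ0 : Za k a z ≠ 0 := left_ne_zero_of_mul hz4
  have hld : logDeriv (fun z => Za k a z * HM z) z = -rr z := by
    rw [logDeriv_mul z hZ0 (hHM z hzp).1 hZd.differentiableAt (hHM z hzp).2.1.differentiableAt,
      logDeriv_apply, hZd.deriv, hzero, zero_div, zero_add, logDeriv_apply, (hHM z hzp).2.1.deriv]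
    have := (hHM z hzp).1
    field_simp
  rw [hld] at hz5
  have h6 : ((Real.log T : ℝ) : ℂ) = -((-rr z - logDeriv HH z) +
      (logDeriv HH z - (Om z.im : ℂ)) + (rr z - (Om z.im : ℂ))) + (((Real.log T : ℝ) : ℂ) - 2 * (Om z.im : ℂ)) := by
    ring
  have h7 : ((Real.log T : ℝ) : ℂ) - 2 * (Om z.im : ℂ) = 0 := by
    rw [hz1]
    have : Om T = Real.log T / 2 := rfl
    rw [this]
    push_cast
    ring
  rw [h7, add_zero] at h6
  have h8 : ‖((Real.log T : ℝ) : ℂ)‖ ≤ EE C1 T δ + C2 + C3 := by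
    rw [h6, norm_neg]
    refine (norm_add_le _ _).trans (add_le_add ((norm_add_le _ _).trans (add_le_add ?_ hz6)) hz7)
    exact hz5
  rw [Complex.norm_real, Real.norm_of_nonneg (by linarith [one_le_log hT3'])] at h8
  linarith [one_le_log hT3']

end Pool.Agent.Q285.SL
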