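import Mathlib

/-!
# Growth of solutions of `u' = q u` on an interval
-/

set_option autoImplicit false

namespace Pool.Agent.Q285.SL

open Complex Filter Topology Metric Set

lemma inner_mul_self (q u : ℂ) : inner ℝ u (q * u) = q.re * ‖u‖ ^ 2 := by
  rw [Complex.inner, ← Complex.normSq_eq_norm_sq]
  simp only [mul_re, mul_im, conj_re, conj_im, Complex.normSq_apply]
  ring

/-- the derivative of `‖u‖² exp (-2 c x)` -/
lemma sq_deriv {u : ℝ → ℂ} {q : ℂ} {x : ℝ} (c : ℝ) (h : HasDerivAt u (q * u x) x) :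
    HasDerivAt (fun x => ‖u x‖ ^ 2 * Real.exp (-(2 * c * x)))
      ((2 * (q.re - c)) * (‖u x‖ ^ 2 * Real.exp (-(2 * c * x)))) x := by
  have h1 := h.norm_sq
  have h2 : HasDerivAt (fun x : ℝ => Real.exp (-(2 * c * x)))
      (Real.exp (-(2 * c * x)) * (-(2 * c))) x := by
    have h3 : HasDerivAt (fun x : ℝ => -(2 * c * x)) (-(2 * c)) x := by
      have := ((hasDerivAt_id x).const_mul (2 * c)).fun_neg
      simpa using this
    exact h3.exp
  have h3 := h1.mul h2
  rw [inner_mul_self] at h3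
  refine h3.congr_deriv ?_
  ring

lemma up {u q : ℝ → ℂ} {a b c : ℝ} (hab : a ≤ b)
    (hu : ∀ x ∈ Icc a b, HasDerivAt u (q x * u x) x) (hq : ∀ x ∈ Icc a b, (q x).re ≤ c) :
    ‖u b‖ ≤ Real.exp (c * (b - a)) * ‖u a‖ := by
  have hanti : AntitoneOn (fun x => ‖u x‖ ^ 2 * Real.exp (-(2 * c * x))) (Icc a b) := by
    apply antitoneOn_of_deriv_nonpos (convex_Icc a b)
    · intro s hs
      exact (sq_deriv c (hu s hs)).continuousAt.continuousWithinAt
    · intro s hs
      exact (sq_deriv c (hu s (interior_subset hs))).differentiableAt.differentiableWithinAt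
    · intro s hs
      rw [(sq_deriv c (hu s (interior_subset hs))).deriv]
      have h1 := hq s (interior_subset hs)
      have h2 : 0 ≤ ‖u s‖ ^ 2 * Real.exp (-(2 * c * s)) := by positivity
      nlinarith
  have h1 := hanti (left_mem_Icc.2 hab) (right_mem_Icc.2 hab) hab
  simp only at h1
  have h2 : ‖u b‖ ^ 2 ≤ (Real.exp (c * (b - a)) * ‖u a‖) ^ 2 := by
    have e1 : Real.exp (c * (b - a)) ^ 2 = Real.exp (-(2 * c * a)) * Real.exp (2 * c * b) := by
      rw [← Real.exp_nat_mul, ← Real.exp_add]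
      congr 1
      push_cast
      ring
    have e2 : ‖u b‖ ^ 2 = ‖u b‖ ^ 2 * Real.exp (-(2 * c * b)) * Real.exp (2 * c * b) := by
      rw [mul_assoc, ← Real.exp_add]
      simp
    rw [e2, mul_pow, e1]
    calc ‖u b‖ ^ 2 * Real.exp (-(2 * c * b)) * Real.exp (2 * c * b) ≤
          ‖u a‖ ^ 2 * Real.exp (-(2 * c * a)) * Real.exp (2 * c * b) :=
          mul_le_mul_of_nonneg_right h1 (Real.exp_pos _).le
      _ = _ := by ring
  exact (pow_le_pow_iff_left₀ (norm_nonneg _) (by positivity) two_ne_zero).1 h2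

lemma down {u q : ℝ → ℂ} {a b c : ℝ} (hab : a ≤ b)
    (hu : ∀ x ∈ Icc a b, HasDerivAt u (q x * u x) x) (hq : ∀ x ∈ Icc a b, c ≤ (q x).re) :
    ‖u a‖ ≤ Real.exp (-(c * (b - a))) * ‖u b‖ := by
  have hmono : MonotoneOn (fun x => ‖u x‖ ^ 2 * Real.exp (-(2 * c * x))) (Icc a b) := by
    apply monotoneOn_of_deriv_nonneg (convex_Icc a b)
    · intro s hs
      exact (sq_deriv c (hu s hs)).continuousAt.continuousWithinAt
    · intro s hs
      exact (sq_deriv c (hu s (interior_subset hs))).differentiableAt.differentiableWithinAt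
    · intro s hs
      rw [(sq_deriv c (hu s (interior_subset hs))).deriv]
      have h1 := hq s (interior_subset hs)
      have h2 : 0 ≤ ‖u s‖ ^ 2 * Real.exp (-(2 * c * s)) := by positivity
      nlinarith
  have h1 := hmono (left_mem_Icc.2 hab) (right_mem_Icc.2 hab) hab
  simp only at h1
  have h2 : ‖u a‖ ^ 2 ≤ (Real.exp (-(c * (b - a))) * ‖u b‖) ^ 2 := by
    have e1 : Real.exp (-(c * (b - a))) ^ 2 = Real.exp (-(2 * c * b)) * Real.exp (2 * c * a) := by
      rw [← Real.exp_nat_mul, ← Real.exp_add]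
      congr 1
      push_cast
      ring
    have e2 : ‖u a‖ ^ 2 = ‖u a‖ ^ 2 * Real.exp (-(2 * c * a)) * Real.exp (2 * c * a) := by
      rw [mul_assoc, ← Real.exp_add]
      simp
    rw [e2, mul_pow, e1]
    calc ‖u a‖ ^ 2 * Real.exp (-(2 * c * a)) * Real.exp (2 * c * a) ≤
          ‖u b‖ ^ 2 * Real.exp (-(2 * c * b)) * Real.exp (2 * c * a) :=
          mul_le_mul_of_nonneg_right h1 (Real.exp_pos _).le
      _ = _ := by ring
  exact (pow_le_pow_iff_left₀ (norm_nonneg _) (by positivity) two_ne_zero).1 h2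

/-- restriction of a holomorphic function to a horizontal line -/
lemma hline {f : ℂ → ℂ} {f' : ℂ} {x y : ℝ} (h : HasDerivAt f f' ((x : ℂ) + I * (y : ℂ))) :
    HasDerivAt (fun x : ℝ => f ((x : ℂ) + I * (y : ℂ))) f' x := by
  have h3 : HasDerivAt (fun s : ℝ => (s : ℂ) + I * (y : ℂ)) 1 x := by
    have h4 : HasDerivAt (fun s : ℝ => (s : ℂ)) 1 x := by
      simpa using (hasDerivAt_id x).ofReal_comp
    exact h4.add_const _
  have h6 := h.comp x h3
  rw [mul_one] at h6
  exact h6

end Pool.Agent.Q285.SL
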