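import Pool.Agent.Q260.SL.Stm2
import Pool.Agent.Q24.DJ.Com
import Pool.Agent.Q285.SL.Line

/-!
# Project SL (helper260), job CA: `(Zk k + a) HM` is in the class
-/

set_option autoImplicit false

namespace Pool.Agent.Q285.SL

open Complex Filter Topology Metric Set
open Pool.Agent.Q260.SL
open Pool.Agent.H24R2.JP (HH XX Om)
open Pool.Agent.Q260.DJ (Cl NZ Ok EE)
open Pool.Agent.Q24.DJ (one_le_log)

lemma li_im (x y : ℝ) : ((x : ℂ) + I * (y : ℂ)).im = y := by simp
lemma li_re (x y : ℝ) : ((x : ℂ) + I * (y : ℂ)).re = x := by simp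
lemma li_eta (z : ℂ) : ((z.re : ℝ) : ℂ) + I * ((z.im : ℝ) : ℂ) = z := by
  apply Complex.ext <;> simp

/-- the sum of two quantities close to `Om` is close to `log` -/
lemma re_near {p r : ℂ} {y A B : ℝ} (h1 : ‖p - (Om y : ℂ)‖ ≤ A) (h2 : ‖r - (Om y : ℂ)‖ ≤ B) :
    Real.log y - (A + B) ≤ (p + r).re ∧ (p + r).re ≤ Real.log y + (A + B) ∧
    ‖p + r‖ ≤ |Real.log y| + (A + B) := by
  have h3 : ‖(p + r) - ((Real.log y : ℝ) : ℂ)‖ ≤ A + B := by
    have e : (p + r) - ((Real.log y : ℝ) : ℂ) = (p - (Om y : ℂ)) + (r - (Om y : ℂ)) := by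
      have : Om y = Real.log y / 2 := rfl
      rw [this]
      push_cast
      ring
    rw [e]
    exact (norm_add_le _ _).trans (add_le_add h1 h2)
  have h4 := abs_le.1 ((abs_re_le_norm _).trans h3)
  rw [sub_re, ofReal_re] at h4
  refine ⟨by linarith [h4.1], by linarith [h4.2], ?_⟩
  have e : p + r = ((Real.log y : ℝ) : ℂ) + ((p + r) - ((Real.log y : ℝ) : ℂ)) := by ring
  calc ‖p + r‖ = ‖((Real.log y : ℝ) : ℂ) + ((p + r) - ((Real.log y : ℝ) : ℂ))‖ := by rw [← e]
    _ ≤ ‖((Real.log y : ℝ) : ℂ)‖ + ‖(p + r) - ((Real.log y : ℝ) : ℂ)‖ := norm_add_le _ _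
    _ ≤ _ := by
      rw [Complex.norm_real, Real.norm_eq_abs]
      linarith

/-- the quotient `HM / G` on a horizontal line -/
lemma quot_deriv {G HMf : ℂ → ℂ} {r : ℂ} {x y : ℝ}
    (h1 : HasDerivAt HMf (-(r * HMf ((x : ℂ) + I * (y : ℂ)))) ((x : ℂ) + I * (y : ℂ)))
    (h2 : DifferentiableAt ℂ G ((x : ℂ) + I * (y : ℂ))) (h3 : G ((x : ℂ) + I * (y : ℂ)) ≠ 0) :
    HasDerivAt (fun x : ℝ => HMf ((x : ℂ) + I * (y : ℂ)) / G ((x : ℂ) + I * (y : ℂ)))
      (-(r + logDeriv G ((x : ℂ) + I * (y : ℂ))) *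
        (HMf ((x : ℂ) + I * (y : ℂ)) / G ((x : ℂ) + I * (y : ℂ)))) x := by
  have h4 := h1.div h2.hasDerivAt h3
  have h5 := hline h4
  refine h5.congr_deriv ?_
  rw [logDeriv_apply]
  field_simp
  ring

lemma le_exp_half {L : ℝ} (hL : 0 ≤ L) : L ≤ Real.exp (L / 2) := by
  have h1 := Real.add_one_le_exp (L / 2 - 1)
  have h2 : Real.exp (L / 2) = Real.exp 1 * Real.exp (L / 2 - 1) := by
    rw [← Real.exp_add]
    congr 1
    ring
  have h3 : 2 ≤ Real.exp 1 := by linarith [Real.add_one_le_exp (1 : ℝ)]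
  rw [h2]
  have h4 : 0 ≤ Real.exp (L / 2 - 1) := (Real.exp_pos _).le
  nlinarith

theorem t_CA (h1 : S_ZA) (h2 : S_HM) (h3 : S_CG) (h4 : Pool.Agent.Q260.DJ.S_HA)
    (_h5 : Pool.Agent.Q260.DJ.S_HB) : S_CA := by
  intro k a
  obtain ⟨hHM, C3, T3, hC3, hT3, hrr, -, hc⟩ := h2
  obtain ⟨hHH, C2, T2, hC2, hT2, hb⟩ := h4
  obtain ⟨hCl, C6, T6, hC6, hT6, hmass⟩ := h3 k
  have hGeq : ∀ z, Za k a z * HM z = Gk k z + a * HM z := by
    intro z
    unfold Za Gk
    ring
  -- comparison of `HM` and `G` to the right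
  have key : ∀ a' B : ℝ, 1 / 2 < a' → B < 40 → ∃ C7 C8 T7 : ℝ, 0 < C7 ∧ 0 < C8 ∧ 3 ≤ T7 ∧
      ∀ z : ℂ, a' ≤ z.re → z.re ≤ B → T7 ≤ z.im → Gk k z ≠ 0 ∧
        ‖logDeriv (Gk k) z - logDeriv HH z‖ ≤ C8 ∧
        ‖rr z + logDeriv (Gk k) z‖ ≤ 2 * Real.log z.im ∧
        ‖HM z‖ ≤ C7 * Real.exp (-(Real.log z.im / 2)) * ‖Gk k z‖ := by
    intro a' B ha' hB
    obtain ⟨C4, T4, hC4, hT4, hr⟩ := hCl.right (min a' 3) (max B 3) (lt_min ha' (by norm_num))
      (max_lt hB (by norm_num))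
    obtain ⟨C5, hC5⟩ : ∃ C5 : ℝ, C5 = C3 + (C2 + C4) := ⟨_, rfl⟩
    refine ⟨C6 * Real.exp (C3 + 5 / 2 * C5), C4, max (max (max T2 T3) (max T4 T6)) (Real.exp C5),
      by positivity, hC4, ?_, ?_⟩
    · exact hT2.trans (((le_max_left _ _).trans (le_max_left _ _)).trans (le_max_left _ _))
    intro z hz1 hz2 hz3
    obtain ⟨y, hy⟩ : ∃ y : ℝ, y = z.im := ⟨_, rfl⟩
    obtain ⟨x, hx⟩ : ∃ x : ℝ, x = z.re := ⟨_, rfl⟩
    have hzxy : (x : ℂ) + I * (y : ℂ) = z := by rw [hx, hy]; exact li_eta z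
    rw [← hx] at hz1 hz2
    rw [← hy] at hz3
    have b2 : T2 ≤ y := (((le_max_left _ _).trans (le_max_left _ _)).trans (le_max_left _ _)).trans hz3
    have b3 : T3 ≤ y := (((le_max_right _ _).trans (le_max_left _ _)).trans (le_max_left _ _)).trans hz3
    have b4 : T4 ≤ y := (((le_max_left _ _).trans (le_max_right _ _)).trans (le_max_left _ _)).trans hz3
    have b6 : T6 ≤ y := (((le_max_right _ _).trans (le_max_right _ _)).trans (le_max_left _ _)).trans hz3
    have b5 : Real.exp C5 ≤ y := (le_max_right _ _).trans hz3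
    have hy3 : 3 ≤ y := hT2.trans b2
    have hyp : 0 < y := by linarith
    have hL1 : 1 ≤ Real.log y := one_le_log hy3
    have hL5 : C5 ≤ Real.log y := (Real.le_log_iff_exp_le hyp).2 b5
    have hab : |Real.log y| = Real.log y := abs_of_nonneg (by linarith)
    -- facts at the points of the line
    have facts : ∀ s : ℝ, min a' 3 ≤ s → s ≤ max B 3 →
        Gk k ((s : ℂ) + I * (y : ℂ)) ≠ 0 ∧
        ‖logDeriv (Gk k) ((s : ℂ) + I * (y : ℂ)) - logDeriv HH ((s : ℂ) + I * (y : ℂ))‖ ≤ C4 ∧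
        (Real.log y - C5 ≤ (rr ((s : ℂ) + I * (y : ℂ)) + logDeriv (Gk k) ((s : ℂ) + I * (y : ℂ))).re ∧
        (rr ((s : ℂ) + I * (y : ℂ)) + logDeriv (Gk k) ((s : ℂ) + I * (y : ℂ))).re ≤ Real.log y + C5 ∧
        ‖rr ((s : ℂ) + I * (y : ℂ)) + logDeriv (Gk k) ((s : ℂ) + I * (y : ℂ))‖ ≤ Real.log y + C5) ∧
        HasDerivAt (fun x : ℝ => HM ((x : ℂ) + I * (y : ℂ)) / Gk k ((x : ℂ) + I * (y : ℂ)))
          (-(rr ((s : ℂ) + I * (y : ℂ)) + logDeriv (Gk k) ((s : ℂ) + I * (y : ℂ))) *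
          (HM ((s : ℂ) + I * (y : ℂ)) / Gk k ((s : ℂ) + I * (y : ℂ)))) s := by
      intro s hs1 hs2
      have hs3 : 1 / 2 < s := (lt_min ha' (by norm_num)).trans_le hs1
      have hs4 : s < 40 := hs2.trans_lt (max_lt hB (by norm_num))
      obtain ⟨g1, g2⟩ := hr ((s : ℂ) + I * (y : ℂ)) (by rw [li_re]; exact hs1)
        (by rw [li_re]; exact hs2) (by rw [li_im]; exact b4)
      have g3 := (hrr ((s : ℂ) + I * (y : ℂ)) (by rw [li_re, abs_le]; constructor <;> linarith)
        (by rw [li_im]; exact b3)).1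
      have g4 := (hb ((s : ℂ) + I * (y : ℂ)) (by rw [li_re]; linarith)
        (by rw [li_re]; linarith) (by rw [li_im]; exact b2)).1
      rw [li_im] at g3 g4
      have g5 : ‖logDeriv (Gk k) ((s : ℂ) + I * (y : ℂ)) - (Om y : ℂ)‖ ≤ C2 + C4 := by
        have e : logDeriv (Gk k) ((s : ℂ) + I * (y : ℂ)) - (Om y : ℂ) =
          (logDeriv HH ((s : ℂ) + I * (y : ℂ)) - (Om y : ℂ)) +
          (logDeriv (Gk k) ((s : ℂ) + I * (y : ℂ)) - logDeriv HH ((s : ℂ) + I * (y : ℂ))) := by ring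
        rw [e]
        exact (norm_add_le _ _).trans (add_le_add g4 g2)
      have g6 := re_near g3 g5
      rw [hab, ← hC5] at g6
      refine ⟨g1, g2, g6, ?_⟩
      exact quot_deriv (hHM _ (by rw [li_im]; exact hyp)).2.1
        (hCl.an _ (by rw [li_im]; exact hyp)).differentiableAt g1
    -- the quotient at `3`
    have at3 : ‖HM ((3 : ℝ) + I * (y : ℂ)) / Gk k ((3 : ℝ) + I * (y : ℂ))‖ ≤
        C6 * Real.exp (C3 - 3 * Real.log y) := by
      have m1 := (hmass y b6).1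
      have m2 := hc ((3 : ℝ) + I * (y : ℂ)) (by rw [li_re]; norm_num) (by rw [li_re])
        (by rw [li_im]; exact b3)
      rw [li_re, li_im] at m2
      have m3 := (abs_le.1 m2).1
      have e3 : (((3 : ℝ) : ℂ) + I * (y : ℂ)) = 3 + I * (y : ℂ) := by push_cast; ring
      rw [← e3] at m1
      set w := (((3 : ℝ) : ℂ) + I * (y : ℂ)) with hw
      have hwim : 0 < w.im := by rw [hw, li_im]; exact hyp
      have p1 : 0 < ‖HH w‖ := norm_pos_iff.2 (hHH w hwim).2
      have p2 : 0 < ‖HM w‖ := norm_pos_iff.2 (hHM w hwim).1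
      have p3 : 0 < ‖Gk k w‖ := norm_pos_iff.2 (facts 3 (min_le_right _ _) (le_max_right _ _)).1
      have m4 : 1 / C6 ≤ ‖Gk k w‖ / ‖HH w‖ := by
        refine le_trans ?_ m1
        exact div_le_div_of_nonneg_right (one_le_pow₀ hL1) (by linarith)
      have m5 : Real.exp (Real.log y * 3 - C3) ≤ ‖HH w‖ / ‖HM w‖ := by
        rw [← Real.le_log_iff_exp_le (by positivity)]
        linarith
      rw [norm_div]
      have m6 : ‖HH w‖ ≤ C6 * ‖Gk k w‖ := by
        rw [div_le_div_iff₀ (by linarith) p1, one_mul] at m4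
        linarith
      have m7 : Real.exp (Real.log y * 3 - C3) * ‖HM w‖ ≤ ‖HH w‖ := by
        rwa [le_div_iff₀ p2] at m5
      rw [div_le_iff₀ p3]
      have m8 : Real.exp (C3 - 3 * Real.log y) * Real.exp (Real.log y * 3 - C3) = 1 := by
        rw [← Real.exp_add]
        rw [show C3 - 3 * Real.log y + (Real.log y * 3 - C3) = 0 by ring, Real.exp_zero]
      calc ‖HM w‖ = Real.exp (C3 - 3 * Real.log y) * (Real.exp (Real.log y * 3 - C3) * ‖HM w‖) := by
            rw [← mul_assoc, m8, one_mul]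
        _ ≤ Real.exp (C3 - 3 * Real.log y) * (C6 * ‖Gk k w‖) :=
            mul_le_mul_of_nonneg_left (m7.trans m6) (Real.exp_pos _).le
        _ = _ := by ring
    have hx1 : min a' 3 ≤ x := (min_le_left _ _).trans hz1
    have hx2 : x ≤ max B 3 := hz2.trans (le_max_left _ _)
    have hx0 : 1 / 2 < x := ha'.trans_le hz1
    obtain ⟨f1, f2, f3, -⟩ := facts x hx1 hx2
    rw [hzxy] at f1 f2 f3
    rw [← hy]
    refine ⟨f1, f2, f3.2.2.trans (by linarith), ?_⟩
    have hq : ‖HM z / Gk k z‖ ≤ C6 * Real.exp (C3 + 5 / 2 * C5) * Real.exp (-(Real.log y / 2)) := by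
      rcases le_total x 3 with hx3 | hx3
      · have hd := down (u := fun x : ℝ => HM ((x : ℂ) + I * (y : ℂ)) / Gk k ((x : ℂ) + I * (y : ℂ)))
          (q := fun s => -(rr ((s : ℂ) + I * (y : ℂ)) + logDeriv (Gk k) ((s : ℂ) + I * (y : ℂ))))
          (c := -(Real.log y + C5)) hx3
          (fun s hs => (facts s (hx1.trans hs.1) (hs.2.trans (le_max_right _ _))).2.2.2)
          (fun s hs => by
            rw [neg_re]
            exact neg_le_neg (facts s (hx1.trans hs.1) (hs.2.trans (le_max_right _ _))).2.2.1.2.1)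
        rw [hzxy] at hd
        refine hd.trans ?_
        calc Real.exp (-(-(Real.log y + C5) * (3 - x))) *
              ‖HM ((3 : ℝ) + I * (y : ℂ)) / Gk k ((3 : ℝ) + I * (y : ℂ))‖ ≤
              Real.exp (-(-(Real.log y + C5) * (3 - x))) * (C6 * Real.exp (C3 - 3 * Real.log y)) :=
              mul_le_mul_of_nonneg_left at3 (Real.exp_pos _).le
          _ = C6 * (Real.exp (-(-(Real.log y + C5) * (3 - x))) * Real.exp (C3 - 3 * Real.log y)) := by
              ring
          _ ≤ C6 * (Real.exp (C3 + 5 / 2 * C5) * Real.exp (-(Real.log y / 2))) := by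
              apply mul_le_mul_of_nonneg_left _ (by linarith)
              rw [← Real.exp_add, ← Real.exp_add]
              apply Real.exp_le_exp.2
              have hC50 : 0 ≤ C5 := by rw [hC5]; linarith
              nlinarith
          _ = _ := by ring
      · have hd := up (u := fun x : ℝ => HM ((x : ℂ) + I * (y : ℂ)) / Gk k ((x : ℂ) + I * (y : ℂ)))
          (q := fun s => -(rr ((s : ℂ) + I * (y : ℂ)) + logDeriv (Gk k) ((s : ℂ) + I * (y : ℂ))))
          (c := -(Real.log y - C5)) hx3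
          (fun s hs => (facts s ((min_le_right _ _).trans hs.1) (hs.2.trans hx2)).2.2.2)
          (fun s hs => by
            rw [neg_re]
            exact neg_le_neg (facts s ((min_le_right _ _).trans hs.1) (hs.2.trans hx2)).2.2.1.1)
        rw [hzxy] at hd
        refine hd.trans ?_
        calc Real.exp (-(Real.log y - C5) * (x - 3)) *
              ‖HM ((3 : ℝ) + I * (y : ℂ)) / Gk k ((3 : ℝ) + I * (y : ℂ))‖ ≤
              Real.exp (-(Real.log y - C5) * (x - 3)) * (C6 * Real.exp (C3 - 3 * Real.log y)) :=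
              mul_le_mul_of_nonneg_left at3 (Real.exp_pos _).le
          _ = C6 * (Real.exp (-(Real.log y - C5) * (x - 3)) * Real.exp (C3 - 3 * Real.log y)) := by
              ring
          _ ≤ C6 * (Real.exp (C3 + 5 / 2 * C5) * Real.exp (-(Real.log y / 2))) := by
              apply mul_le_mul_of_nonneg_left _ (by linarith)
              rw [← Real.exp_add, ← Real.exp_add]
              apply Real.exp_le_exp.2
              have hC50 : 0 ≤ C5 := by rw [hC5]; linarith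
              nlinarith
          _ = _ := by ring
    rw [norm_div, div_le_iff₀ (norm_pos_iff.2 f1)] at hq
    exact hq
  refine ⟨?_, ?_, ?_, ?_⟩
  · -- analyticity
    intro z hz
    have := ((h1.1 k z hz).1.add (analyticAt_const (v := a))).mul (hHM z hz).2.2.2
    exact this
  · -- growth
    intro a' B ha' hB
    obtain ⟨A, T0, hA, hT0, hg⟩ := hCl.grow a' B ha' hB
    obtain ⟨C5, hC5⟩ : ∃ C5 : ℝ, C5 = C3 + C2 := ⟨_, rfl⟩
    have hla : 0 ≤ Real.log (1 + ‖a‖) := Real.log_nonneg (by linarith [norm_nonneg a])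
    refine ⟨A + C3 + 2 + Real.log (1 + ‖a‖), max (max T2 T3) (max T0 (Real.exp C5)), by linarith,
      hT2.trans ((le_max_left _ _).trans (le_max_left _ _)), ?_⟩
    intro z hz1 hz2 hz3
    rw [hGeq z]
    obtain ⟨y, hy⟩ : ∃ y : ℝ, y = z.im := ⟨_, rfl⟩
    obtain ⟨x, hx⟩ : ∃ x : ℝ, x = z.re := ⟨_, rfl⟩
    have hzxy : (x : ℂ) + I * (y : ℂ) = z := by rw [hx, hy]; exact li_eta z
    have hg0 := hg z hz1 hz2 (((le_max_left _ _).trans (le_max_right _ _)).trans hz3)
    rw [← hy] at hz3 hg0 ⊢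
    rw [← hx] at hz1 hz2
    have b2 : T2 ≤ y := ((le_max_left _ _).trans (le_max_left _ _)).trans hz3
    have b3 : T3 ≤ y := ((le_max_right _ _).trans (le_max_left _ _)).trans hz3
    have b5 : Real.exp C5 ≤ y := ((le_max_right _ _).trans (le_max_right _ _)).trans hz3
    have hy3 : 3 ≤ y := hT2.trans b2
    have hyp : 0 < y := by linarith
    have hL1 : 1 ≤ Real.log y := one_le_log hy3
    have hL5 : C5 ≤ Real.log y := (Real.le_log_iff_exp_le hyp).2 b5
    have hab : |Real.log y| = Real.log y := abs_of_nonneg (by linarith)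
    have facts : ∀ s : ℝ, -1 ≤ s → s ≤ 40 →
        (Real.log y - C5 ≤ (rr ((s : ℂ) + I * (y : ℂ)) + logDeriv HH ((s : ℂ) + I * (y : ℂ))).re ∧
        (rr ((s : ℂ) + I * (y : ℂ)) + logDeriv HH ((s : ℂ) + I * (y : ℂ))).re ≤ Real.log y + C5 ∧
        ‖rr ((s : ℂ) + I * (y : ℂ)) + logDeriv HH ((s : ℂ) + I * (y : ℂ))‖ ≤ Real.log y + C5) ∧
        HasDerivAt (fun x : ℝ => HM ((x : ℂ) + I * (y : ℂ)) / HH ((x : ℂ) + I * (y : ℂ)))
          (-(rr ((s : ℂ) + I * (y : ℂ)) + logDeriv HH ((s : ℂ) + I * (y : ℂ))) *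
          (HM ((s : ℂ) + I * (y : ℂ)) / HH ((s : ℂ) + I * (y : ℂ)))) s := by
      intro s hs1 hs2
      have g3 := (hrr ((s : ℂ) + I * (y : ℂ)) (by rw [li_re, abs_le]; constructor <;> linarith)
        (by rw [li_im]; exact b3)).1
      have g4 := (hb ((s : ℂ) + I * (y : ℂ)) (by rw [li_re]; linarith)
        (by rw [li_re]; linarith) (by rw [li_im]; exact b2)).1
      rw [li_im] at g3 g4
      have g6 := re_near g3 g4
      rw [hab, ← hC5] at g6
      refine ⟨g6, ?_⟩
      exact quot_deriv (hHM _ (by rw [li_im]; exact hyp)).2.1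
        (hHH _ (by rw [li_im]; exact hyp)).1.differentiableAt (hHH _ (by rw [li_im]; exact hyp)).2
    have at0 : ‖HM ((0 : ℝ) + I * (y : ℂ)) / HH ((0 : ℝ) + I * (y : ℂ))‖ ≤ Real.exp C3 := by
      have m2 := hc ((0 : ℝ) + I * (y : ℂ)) (by rw [li_re]) (by rw [li_re]; norm_num)
        (by rw [li_im]; exact b3)
      rw [li_re, li_im, mul_zero, sub_zero] at m2
      have m3 := (abs_le.1 m2).1
      set w := (((0 : ℝ) : ℂ) + I * (y : ℂ)) with hw
      have hwim : 0 < w.im := by rw [hw, li_im]; exact hyp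
      have p1 : 0 < ‖HH w‖ := norm_pos_iff.2 (hHH w hwim).2
      have p2 : 0 < ‖HM w‖ := norm_pos_iff.2 (hHM w hwim).1
      have m5 : Real.exp (-C3) ≤ ‖HH w‖ / ‖HM w‖ := by
        rw [← Real.le_log_iff_exp_le (by positivity)]
        linarith
      rw [norm_div]
      have m7 : Real.exp (-C3) * ‖HM w‖ ≤ ‖HH w‖ := by
        rwa [le_div_iff₀ p2] at m5
      rw [div_le_iff₀ p1]
      calc ‖HM w‖ = Real.exp C3 * (Real.exp (-C3) * ‖HM w‖) := by
            rw [← mul_assoc, ← Real.exp_add, add_neg_cancel, Real.exp_zero, one_mul]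
        _ ≤ _ := mul_le_mul_of_nonneg_left m7 (Real.exp_pos _).le
    have hC50 : 0 ≤ C5 := by rw [hC5]; linarith
    have hq : ‖HM z / HH z‖ ≤ Real.exp (2 * Real.log y) * Real.exp C3 := by
      rcases le_total x 0 with hx3 | hx3
      · have hd := down (u := fun x : ℝ => HM ((x : ℂ) + I * (y : ℂ)) / HH ((x : ℂ) + I * (y : ℂ)))
          (q := fun s => -(rr ((s : ℂ) + I * (y : ℂ)) + logDeriv HH ((s : ℂ) + I * (y : ℂ))))
          (c := -(Real.log y + C5)) hx3
          (fun s hs => (facts s (by linarith [hs.1]) (by linarith [hs.2])).2)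
          (fun s hs => by
            rw [neg_re]
            exact neg_le_neg (facts s (by linarith [hs.1]) (by linarith [hs.2])).1.2.1)
        rw [hzxy] at hd
        refine hd.trans (mul_le_mul ?_ at0 (norm_nonneg _) (Real.exp_pos _).le)
        apply Real.exp_le_exp.2
        nlinarith
      · have hd := up (u := fun x : ℝ => HM ((x : ℂ) + I * (y : ℂ)) / HH ((x : ℂ) + I * (y : ℂ)))
          (q := fun s => -(rr ((s : ℂ) + I * (y : ℂ)) + logDeriv HH ((s : ℂ) + I * (y : ℂ))))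
          (c := -(Real.log y - C5)) hx3
          (fun s hs => (facts s (by linarith [hs.1]) (by linarith [hs.2])).2)
          (fun s hs => by
            rw [neg_re]
            exact neg_le_neg (facts s (by linarith [hs.1]) (by linarith [hs.2])).1.1)
        rw [hzxy] at hd
        refine hd.trans (mul_le_mul ?_ at0 (norm_nonneg _) (Real.exp_pos _).le)
        apply Real.exp_le_exp.2
        nlinarith
    have hzim : 0 < z.im := by rw [← hy]; exact hyp
    have p1 : 0 < ‖HH z‖ := norm_pos_iff.2 (hHH z hzim).2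
    rw [norm_div, div_le_iff₀ p1] at hq
    have e1 : Real.exp (A * Real.log y) ≤ Real.exp ((A + C3 + 2) * Real.log y) := by
      apply Real.exp_le_exp.2
      nlinarith
    have e2 : Real.exp (2 * Real.log y) * Real.exp C3 ≤ Real.exp ((A + C3 + 2) * Real.log y) := by
      rw [← Real.exp_add]
      apply Real.exp_le_exp.2
      nlinarith
    have e3 : 1 + ‖a‖ ≤ Real.exp (Real.log (1 + ‖a‖) * Real.log y) := by
      calc 1 + ‖a‖ = Real.exp (Real.log (1 + ‖a‖)) := (Real.exp_log (by positivity)).symm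
        _ ≤ _ := by
          apply Real.exp_le_exp.2
          nlinarith
    calc ‖Gk k z + a * HM z‖ ≤ ‖Gk k z‖ + ‖a‖ * ‖HM z‖ := by
          refine (norm_add_le _ _).trans ?_
          rw [norm_mul]
      _ ≤ Real.exp (A * Real.log y) * ‖HH z‖ +
          ‖a‖ * (Real.exp (2 * Real.log y) * Real.exp C3 * ‖HH z‖) :=
          add_le_add hg0 (mul_le_mul_of_nonneg_left hq (norm_nonneg _))
      _ ≤ Real.exp ((A + C3 + 2) * Real.log y) * ‖HH z‖ +
          ‖a‖ * (Real.exp ((A + C3 + 2) * Real.log y) * ‖HH z‖) := by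
          gcongr
      _ = (1 + ‖a‖) * Real.exp ((A + C3 + 2) * Real.log y) * ‖HH z‖ := by ring
      _ ≤ Real.exp (Real.log (1 + ‖a‖) * Real.log y) * Real.exp ((A + C3 + 2) * Real.log y) *
          ‖HH z‖ := by gcongr
      _ = _ := by
          rw [← Real.exp_add]
          congr 2
          ring
  · -- to the right
    intro a' B ha' hB
    obtain ⟨C7, C8, T7, hC7, hC8, hT7, hk⟩ := key a' B ha' hB
    refine ⟨C8 + 4 * (‖a‖ * C7), max T7 (Real.exp (2 * (‖a‖ * C7))), by positivity,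
      hT7.trans (le_max_left _ _), ?_⟩
    intro z hz1 hz2 hz3
    obtain ⟨g1, g2, g3, g4⟩ := hk z hz1 hz2 ((le_max_left _ _).trans hz3)
    have hy3 : 3 ≤ z.im := hT7.trans ((le_max_left _ _).trans hz3)
    have hyp : 0 < z.im := by linarith
    have hL1 : 1 ≤ Real.log z.im := one_le_log hy3
    have hL2 : 2 * (‖a‖ * C7) ≤ Real.log z.im :=
      (Real.le_log_iff_exp_le hyp).2 ((le_max_right _ _).trans hz3)
    obtain ⟨L, hL⟩ : ∃ L : ℝ, L = Real.log z.im := ⟨_, rfl⟩
    rw [← hL] at g3 g4 hL1 hL2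
    have hE : L ≤ Real.exp (L / 2) := le_exp_half (by linarith)
    have hE2 : Real.exp (-(L / 2)) * Real.exp (L / 2) = 1 := by
      rw [← Real.exp_add]; simp
    have hE3 : 0 < Real.exp (-(L / 2)) := Real.exp_pos _
    have hE4 : L * Real.exp (-(L / 2)) ≤ 1 := by
      calc L * Real.exp (-(L / 2)) ≤ Real.exp (L / 2) * Real.exp (-(L / 2)) :=
            mul_le_mul_of_nonneg_right hE hE3.le
        _ = 1 := by rw [mul_comm]; exact hE2
    have hG : 0 < ‖Gk k z‖ := norm_pos_iff.2 g1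
    have hac : 0 ≤ ‖a‖ * C7 := by positivity
    -- the perturbation is small
    have s1 : ‖a * HM z‖ ≤ ‖a‖ * C7 * Real.exp (-(L / 2)) * ‖Gk k z‖ := by
      rw [norm_mul]
      calc ‖a‖ * ‖HM z‖ ≤ ‖a‖ * (C7 * Real.exp (-(L / 2)) * ‖Gk k z‖) :=
            mul_le_mul_of_nonneg_left g4 (norm_nonneg _)
        _ = _ := by ring
    have s2 : ‖a‖ * C7 * Real.exp (-(L / 2)) ≤ 1 / 2 := by
      nlinarith
    have s3 : ‖a * HM z‖ ≤ 1 / 2 * ‖Gk k z‖ :=
      s1.trans (mul_le_mul_of_nonneg_right s2 hG.le)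
    have s4 : 1 / 2 * ‖Gk k z‖ ≤ ‖Gk k z + a * HM z‖ := by
      have : ‖Gk k z‖ ≤ ‖Gk k z + a * HM z‖ + ‖a * HM z‖ := by
        calc ‖Gk k z‖ = ‖(Gk k z + a * HM z) - a * HM z‖ := by rw [add_sub_cancel_right]
          _ ≤ _ := norm_sub_le _ _
      linarith
    have hF0 : Gk k z + a * HM z ≠ 0 := by
      rw [← norm_pos_iff]
      linarith
    refine ⟨by simp only [hGeq z]; exact hF0, ?_⟩
    have hFfun : (fun z => Za k a z * HM z) = fun z => Gk k z + a * HM z := funext hGeq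
    rw [hFfun]
    have hd : HasDerivAt (fun z => Gk k z + a * HM z)
        (deriv (Gk k) z + a * (-(rr z * HM z))) z :=
      (hCl.an z hyp).differentiableAt.hasDerivAt.add ((hHM z hyp).2.1.const_mul a)
    have hld : logDeriv (fun z => Gk k z + a * HM z) z - logDeriv HH z =
        (logDeriv (Gk k) z - logDeriv HH z) -
          a * HM z * (rr z + logDeriv (Gk k) z) / (Gk k z + a * HM z) := by
      have e1 : logDeriv (fun z => Gk k z + a * HM z) z =
          (deriv (Gk k) z + a * (-(rr z * HM z))) / (Gk k z + a * HM z) := by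
        rw [logDeriv_apply, hd.deriv]
      have e2 : deriv (Gk k) z = logDeriv (Gk k) z * Gk k z := by
        rw [logDeriv_apply]
        field_simp
      rw [e1, e2]
      have e3 : (logDeriv (Gk k) z * Gk k z + a * (-(rr z * HM z))) / (Gk k z + a * HM z) =
          logDeriv (Gk k) z - a * HM z * (rr z + logDeriv (Gk k) z) / (Gk k z + a * HM z) := by
        rw [eq_sub_iff_add_eq, ← add_div, div_eq_iff hF0]
        ring
      rw [e3]
      ring
    rw [hld]
    refine (norm_sub_le _ _).trans (add_le_add g2 ?_)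
    rw [norm_div, norm_mul, div_le_iff₀ (norm_pos_iff.2 hF0)]
    calc ‖a * HM z‖ * ‖rr z + logDeriv (Gk k) z‖ ≤
          (‖a‖ * C7 * Real.exp (-(L / 2)) * ‖Gk k z‖) * (2 * L) :=
          mul_le_mul s1 g3 (norm_nonneg _) (by positivity)
      _ = (‖a‖ * C7) * (L * Real.exp (-(L / 2))) * (2 * ‖Gk k z‖) := by ring
      _ ≤ (‖a‖ * C7) * 1 * (2 * ‖Gk k z‖) := by
          apply mul_le_mul_of_nonneg_right _ (by positivity)
          exact mul_le_mul_of_nonneg_left hE4 hac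
      _ = 4 * (‖a‖ * C7) * (1 / 2 * ‖Gk k z‖) := by ring
      _ ≤ 4 * (‖a‖ * C7) * ‖Gk k z + a * HM z‖ :=
          mul_le_mul_of_nonneg_left s4 (by positivity)
  · -- the mass
    obtain ⟨C7, C8, T7, hC7, hC8, hT7, hk⟩ := key 1 6 (by norm_num) (by norm_num)
    refine ⟨k, 0, 2 * C6, max (max T7 T6) (Real.exp (2 * (‖a‖ * C7))), by linarith,
      hT7.trans ((le_max_left _ _).trans (le_max_left _ _)), ?_⟩
    intro t ht
    have b7 : T7 ≤ t := ((le_max_left _ _).trans (le_max_left _ _)).trans ht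
    have b6 : T6 ≤ t := ((le_max_right _ _).trans (le_max_left _ _)).trans ht
    have bE : Real.exp (2 * (‖a‖ * C7)) ≤ t := (le_max_right _ _).trans ht
    have ht3 : 3 ≤ t := hT7.trans b7
    have htp : 0 < t := by linarith
    have hL1 : 1 ≤ Real.log t := one_le_log ht3
    have hL2 : 2 * (‖a‖ * C7) ≤ Real.log t := (Real.le_log_iff_exp_le htp).2 bE
    obtain ⟨m1, m2⟩ := hmass t b6
    have hre : ((3 : ℂ) + I * (t : ℂ)).re = 3 := by simp
    have him : ((3 : ℂ) + I * (t : ℂ)).im = t := by simp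
    obtain ⟨g1, g2, g3, g4⟩ := hk ((3 : ℂ) + I * (t : ℂ)) (by rw [hre]; norm_num)
      (by rw [hre]; norm_num) (by rw [him]; exact b7)
    rw [him] at g3 g4
    set w := ((3 : ℂ) + I * (t : ℂ)) with hw
    obtain ⟨L, hL⟩ : ∃ L : ℝ, L = Real.log t := ⟨_, rfl⟩
    rw [← hL] at g3 g4 hL1 hL2 m1 m2 ⊢
    have hE : L ≤ Real.exp (L / 2) := le_exp_half (by linarith)
    have hE2 : Real.exp (-(L / 2)) * Real.exp (L / 2) = 1 := by
      rw [← Real.exp_add]; simp
    have hE3 : 0 < Real.exp (-(L / 2)) := Real.exp_pos _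
    have hE4 : L * Real.exp (-(L / 2)) ≤ 1 := by
      calc L * Real.exp (-(L / 2)) ≤ Real.exp (L / 2) * Real.exp (-(L / 2)) :=
            mul_le_mul_of_nonneg_right hE hE3.le
        _ = 1 := by rw [mul_comm]; exact hE2
    have hG : 0 < ‖Gk k w‖ := norm_pos_iff.2 g1
    have s1 : ‖a * HM w‖ ≤ ‖a‖ * C7 * Real.exp (-(L / 2)) * ‖Gk k w‖ := by
      rw [norm_mul]
      calc ‖a‖ * ‖HM w‖ ≤ ‖a‖ * (C7 * Real.exp (-(L / 2)) * ‖Gk k w‖) :=
            mul_le_mul_of_nonneg_left g4 (norm_nonneg _)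
        _ = _ := by ring
    have s2 : ‖a‖ * C7 * Real.exp (-(L / 2)) ≤ 1 / 2 := by
      nlinarith
    have s3 : ‖a * HM w‖ ≤ 1 / 2 * ‖Gk k w‖ :=
      s1.trans (mul_le_mul_of_nonneg_right s2 hG.le)
    have s4 : 1 / 2 * ‖Gk k w‖ ≤ ‖Gk k w + a * HM w‖ := by
      have : ‖Gk k w‖ ≤ ‖Gk k w + a * HM w‖ + ‖a * HM w‖ := by
        calc ‖Gk k w‖ = ‖(Gk k w + a * HM w) - a * HM w‖ := by rw [add_sub_cancel_right]
          _ ≤ _ := norm_sub_le _ _
      linarith
    have s5 : ‖Gk k w + a * HM w‖ ≤ 2 * ‖Gk k w‖ := by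
      have := norm_add_le (Gk k w) (a * HM w)
      linarith
    have hH : 0 < ‖HH w‖ := norm_pos_iff.2 (hHH w (by rw [him]; exact htp)).2
    simp only [pow_zero, div_one]
    rw [hGeq w]
    constructor
    · calc L ^ k / (2 * C6) = 1 / 2 * (L ^ k / C6) := by
            field_simp
        _ ≤ 1 / 2 * (‖Gk k w‖ / ‖HH w‖) := by
            apply mul_le_mul_of_nonneg_left m1 (by norm_num)
        _ = (1 / 2 * ‖Gk k w‖) / ‖HH w‖ := by ring
        _ ≤ _ := div_le_div_of_nonneg_right s4 hH.le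
    · calc ‖Gk k w + a * HM w‖ / ‖HH w‖ ≤ (2 * ‖Gk k w‖) / ‖HH w‖ :=
            div_le_div_of_nonneg_right s5 hH.le
        _ = 2 * (‖Gk k w‖ / ‖HH w‖) := by ring
        _ ≤ 2 * (C6 * L ^ k) := mul_le_mul_of_nonneg_left m2 (by norm_num)
        _ = _ := by ring

end Pool.Agent.Q285.SL
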