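import Mathlib
import Pool.Agent.Q167.SL.StmD

/-! # Project SL2 of helper167: job SL-FA, the family of all frequencies -/

set_option autoImplicit false

open MeasureTheory Filter Topology

namespace Pool.Agent.Q285.SL

open Pool.Agent.Q167.SL

/-- a function with positive derivative at a point and continuous near it takes all values near the value
at the point -/
theorem surj_near {f : ℝ → ℝ} {x d ρ : ℝ} (hf : Continuous f) (hd : HasDerivAt f d x) (h0 : 0 < d)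
    (hρ : 0 < ρ) : ∃ a b : ℝ, a < f x ∧ f x < b ∧ ∀ y ∈ Set.Ioo a b, ∃ z : ℝ, |z - x| < ρ ∧ f z = y := by
  have h1 := (hasDerivAt_iff_tendsto_slope.1 hd).eventually (lt_mem_nhds h0)
  have hR : ∀ᶠ y in 𝓝[>] x, 0 < slope f x y :=
    h1.filter_mono (nhdsWithin_mono x fun y hy => ne_of_gt hy)
  have hL : ∀ᶠ y in 𝓝[<] x, 0 < slope f x y :=
    h1.filter_mono (nhdsWithin_mono x fun y hy => ne_of_lt hy)
  obtain ⟨q, hq1, hq2⟩ := (hR.and (Ioo_mem_nhdsGT (show x < x + ρ by linarith))).exists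
  obtain ⟨p, hp1, hp2⟩ := (hL.and (Ioo_mem_nhdsLT (show x - ρ < x by linarith))).exists
  rw [slope_def_field] at hq1 hp1
  have hq3 : f x < f q := by
    have h3 : 0 < q - x := by linarith [hq2.1]
    have h4 : 0 < f q - f x := by
      have := mul_pos hq1 h3
      rwa [div_mul_cancel₀ _ h3.ne'] at this
    linarith
  have hp3 : f p < f x := by
    have h3 : p - x < 0 := by linarith [hp2.2]
    have h4 : f p - f x < 0 := by
      have := mul_neg_of_pos_of_neg hp1 h3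
      rwa [div_mul_cancel₀ _ h3.ne] at this
    linarith
  refine ⟨f p, f q, hp3, hq3, fun y hy => ?_⟩
  obtain ⟨z, hz1, hz2⟩ := intermediate_value_Icc (show p ≤ q by linarith [hp2.2, hq2.1])
    hf.continuousOn (show y ∈ Set.Icc (f p) (f q) from ⟨hy.1.le, hy.2.le⟩)
  refine ⟨z, ?_, hz2⟩
  rw [abs_lt]
  constructor
  · linarith [hp2.1, hz1.1]
  · linarith [hq2.2, hz1.2]

theorem pos_min (E : ℝ → ℝ) (hE : ∀ x, 0 < E x) (t : Finset ℝ) : ∃ e : ℝ, 0 < e ∧ ∀ x ∈ t, e ≤ E x := by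
  classical
  induction t using Finset.induction_on with
  | empty => exact ⟨1, one_pos, by simp⟩
  | insert a t _ ih =>
    obtain ⟨e, he, h⟩ := ih
    refine ⟨min e (E a), lt_min he (hE a), fun x hx => ?_⟩
    rcases Finset.mem_insert.1 hx with rfl | hx
    · exact min_le_right _ _
    · exact (min_le_left _ _).trans (h x hx)

/-- the large frequencies -/
theorem large {η ε r lam : ℝ} {n : ℕ} (hn : 1 ≤ n)
    (hk : ∀ σ : ℂ, σ ≠ 0 → Bd n r (Real.exp (n * (|σ.re| - 1 / 2 * Real.log ‖σ‖ - 1 / 2 + ε)))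
      (fun τ => Complex.exp (n * σ * τ)))
    (hmono : ∀ (u : ℝ → ℂ) (D D' : ℝ), D ≤ D' → Bd n r D u → Bd n r D' u)
    (hlam : Real.exp (2 * |Ph η|) ≤ |lam / n|) :
    Bd n r (Real.exp (-(n * (Ph η - ε))))
      (fun τ => Complex.exp (((lam * τ : ℝ) : ℂ) * Complex.I)) := by
  have hn0 : (0 : ℝ) < n := by exact_mod_cast hn
  have hξ0 : 0 < |lam / n| := lt_of_lt_of_le (Real.exp_pos _) hlam
  have hne : ((lam / n : ℝ) : ℂ) * Complex.I ≠ 0 := by
    refine mul_ne_zero ?_ Complex.I_ne_zero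
    rw [Ne, Complex.ofReal_eq_zero]
    exact abs_pos.1 hξ0
  have h1 := hk (((lam / n : ℝ) : ℂ) * Complex.I) hne
  have e1 : (fun τ : ℝ => Complex.exp ((n : ℂ) * (((lam / n : ℝ) : ℂ) * Complex.I) * (τ : ℂ))) =
      fun τ : ℝ => Complex.exp (((lam * τ : ℝ) : ℂ) * Complex.I) := by
    funext τ
    congr 1
    have hnC : (n : ℂ) ≠ 0 := by
      rw [Ne, Nat.cast_eq_zero]
      omega
    push_cast
    field_simp
  rw [e1] at h1
  refine hmono _ _ _ (Real.exp_le_exp.2 ?_) h1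
  have e2 : ‖((lam / n : ℝ) : ℂ) * Complex.I‖ = |lam / n| := by
    rw [norm_mul, Complex.norm_I, mul_one, Complex.norm_real, Real.norm_eq_abs]
  have e3 : (((lam / n : ℝ) : ℂ) * Complex.I).re = 0 := by simp
  have e4 : 2 * |Ph η| ≤ Real.log |lam / n| := by
    rw [Real.le_log_iff_exp_le hξ0]
    exact hlam
  have e5 := le_abs_self (Ph η)
  rw [e2, e3, abs_zero]
  have e6 : (n : ℝ) * (0 - 1 / 2 * Real.log |lam / n| - 1 / 2 + ε) ≤ n * (-(Ph η - ε)) :=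
    mul_le_mul_of_nonneg_left (by linarith) hn0.le
  linarith

theorem fa : S_fa := by
  classical
  intro hlin hta hexpk h3 h4 h5 h6 η a ε hη hta0 ha0 ha1 hε
  -- the local families
  have hloc : ∀ ξ : ℝ, ∃ E : ℝ, 0 < E ∧ ∃ A B : ℝ, A < ξ ∧ ξ < B ∧
      ∀ ε₂ r : ℝ, 0 < ε₂ → 0 ≤ r → r < 1 → ∃ n₀ : ℕ, ∀ n : ℕ, n₀ ≤ n →
      ∀ ζ ∈ Set.Ioo A B, ∃ u ud : ℝ → ℂ,
        (∀ τ, HasDerivAt u (ud τ) τ) ∧ Continuous ud ∧
        (∀ τ ∈ Set.Icc a 1,
          ‖u τ - Complex.exp (((n * ζ * τ : ℝ) : ℂ) * Complex.I)‖ ≤ Real.exp (-E * n) ∧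
          ‖ud τ - ((n * ζ : ℝ) : ℂ) * Complex.I *
            Complex.exp (((n * ζ * τ : ℝ) : ℂ) * Complex.I)‖ ≤ Real.exp (-E * n)) ∧
        (∀ τ ∈ Set.Icc (-1 : ℝ) 1, ‖u τ‖ ≤ Real.exp (ε₂ * n)) ∧
        Bd n r (Real.exp (-(n * (Ph η - ε)))) u := by
    intro ξ
    obtain ⟨η', φ₀, hη'0, hη', hφ₀, hsg, htt⟩ := h5 η ξ hη
    have hK := h3 η' hη'0
    obtain ⟨ρ, ε₁, hρ, hε₁, hfam⟩ := hta η' (Ph η') (sg η') (Ps η') (tt η') hK φ₀ a
      (h4 η' φ₀ hη'0 hφ₀) (htt.trans_lt hta0) (by linarith) ha1 ε hε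
    have hline : ∀ φ : ℝ, |((φ : ℂ) * Complex.I).re| < η' := fun φ => by simpa using hη'0
    have hder : ∀ φ : ℝ, HasDerivAt (fun φ : ℝ => (sg η' (φ * Complex.I)).im)
        (deriv (sg η') (φ * Complex.I)).re φ := by
      intro φ
      have k1 : HasDerivAt (sg η') (deriv (sg η') (φ * Complex.I)) ((φ : ℂ) * Complex.I) :=
        (hK.ds _ (hline φ)).hasDerivAt
      have k2 : HasDerivAt (fun φ : ℝ => (φ : ℂ) * Complex.I) (1 * Complex.I) φ :=
        (Complex.ofRealCLM.hasDerivAt (x := φ)).mul_const Complex.I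
      have k3 := k1.comp_of_eq φ k2 rfl
      have k4 := Complex.imCLM.hasFDerivAt.comp_hasDerivAt φ k3
      have e : Complex.imCLM (deriv (sg η') (φ * Complex.I) * (1 * Complex.I)) =
          (deriv (sg η') (φ * Complex.I)).re := by
        simp
      rw [e] at k4
      exact k4
    have hcont : Continuous (fun φ : ℝ => (sg η' (φ * Complex.I)).im) :=
      continuous_iff_continuousAt.2 fun φ => (hder φ).continuousAt
    obtain ⟨A, B, hA, hB, hAB⟩ := surj_near hcont (hder φ₀) (h4 η' φ₀ hη'0 hφ₀) hρ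
    rw [hsg] at hA hB
    refine ⟨ε₁, hε₁, A, B, hA, hB, ?_⟩
    intro ε₂ r hε₂ hr0 hr1
    obtain ⟨n₀, hn₀⟩ := hfam ε₂ r hε₂ hr0 hr1
    refine ⟨max n₀ 1, fun n hn ζ hζ => ?_⟩
    obtain ⟨φ, hφ, hφζ⟩ := hAB ζ hζ
    obtain ⟨u, ud, g1, g2, g3, g4, g5⟩ := hn₀ n ((le_max_left _ _).trans hn) φ hφ
    have hn1 : 1 ≤ n := (le_max_right _ _).trans hn
    rw [hφζ] at g3
    refine ⟨u, ud, g1, g2, g3, g4, ?_⟩
    refine (hlin n r hn1 hr0 hr1).2.2.2 u _ _ (Real.exp_le_exp.2 ?_) g5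
    have hPh : Ph η ≤ Ph η' := h6.antitoneOn (Set.mem_Ioi.2 hη'0) (Set.mem_Ioi.2 hη) hη'
    have hn0 : (0 : ℝ) ≤ n := Nat.cast_nonneg n
    have := mul_le_mul_of_nonneg_left hPh hn0
    linarith
  choose E hE A B hA hB hfam using hloc
  obtain ⟨C₀, hC₀⟩ : ∃ C₀ : ℝ, C₀ = Real.exp (2 * |Ph η|) := ⟨_, rfl⟩
  obtain ⟨t, -, ht⟩ := (isCompact_Icc (a := -C₀) (b := C₀)).elim_nhds_subcover
    (fun ξ => Set.Ioo (A ξ) (B ξ)) (fun ξ _ => Ioo_mem_nhds (hA ξ) (hB ξ))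
  obtain ⟨e, he, het⟩ := pos_min E hE t
  refine ⟨e, he, ?_⟩
  intro ε₂ r hε₂ hr0 hr1
  have hfam' : ∀ ξ : ℝ, ∃ n₀ : ℕ, ∀ n : ℕ, n₀ ≤ n →
      ∀ ζ ∈ Set.Ioo (A ξ) (B ξ), ∃ u ud : ℝ → ℂ,
        (∀ τ, HasDerivAt u (ud τ) τ) ∧ Continuous ud ∧
        (∀ τ ∈ Set.Icc a 1,
          ‖u τ - Complex.exp (((n * ζ * τ : ℝ) : ℂ) * Complex.I)‖ ≤ Real.exp (-E ξ * n) ∧
          ‖ud τ - ((n * ζ : ℝ) : ℂ) * Complex.I *
            Complex.exp (((n * ζ * τ : ℝ) : ℂ) * Complex.I)‖ ≤ Real.exp (-E ξ * n)) ∧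
        (∀ τ ∈ Set.Icc (-1 : ℝ) 1, ‖u τ‖ ≤ Real.exp (ε₂ * n)) ∧
        Bd n r (Real.exp (-(n * (Ph η - ε)))) u := fun ξ => hfam ξ ε₂ r hε₂ hr0 hr1
  choose N hN using hfam'
  obtain ⟨N₁, hN₁⟩ := hexpk r ε hr0 hr1 hε
  refine ⟨max (max 1 N₁) (t.sup N), fun n hn lam => ?_⟩
  have hn1 : 1 ≤ n := ((le_max_left _ _).trans (le_max_left _ _)).trans hn
  have hnN : N₁ ≤ n := ((le_max_right _ _).trans (le_max_left _ _)).trans hn
  have hnt : t.sup N ≤ n := (le_max_right _ _).trans hn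
  have hn0 : (0 : ℝ) < n := by exact_mod_cast hn1
  have hone : 1 ≤ Real.exp (ε₂ * n) := Real.one_le_exp (by positivity)
  by_cases hc : C₀ ≤ |lam / n|
  · refine ⟨fun τ => Complex.exp (((lam * τ : ℝ) : ℂ) * Complex.I),
      fun τ => lam * Complex.I * Complex.exp (((lam * τ : ℝ) : ℂ) * Complex.I), ?_, ?_, ?_, ?_, ?_⟩
    · intro τ
      have k2 : HasDerivAt (fun τ : ℝ => ((lam * τ : ℝ) : ℂ) * Complex.I) (lam * Complex.I) τ := by
        have k0 : HasDerivAt (fun τ : ℝ => lam * τ) lam τ := by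
          simpa using (hasDerivAt_id τ).const_mul lam
        exact (k0.ofReal_comp).mul_const Complex.I
      have k3 := k2.cexp
      rw [mul_comm] at k3
      exact k3
    · fun_prop
    · intro τ _
      rw [sub_self, sub_self, norm_zero]
      exact ⟨(Real.exp_pos _).le, (Real.exp_pos _).le⟩
    · intro τ _
      rw [Complex.norm_exp_ofReal_mul_I]
      exact hone
    · rw [hC₀] at hc
      exact large hn1 (hN₁ n hnN) (hlin n r hn1 hr0 hr1).2.2.2 hc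
  · push Not at hc
    have hmem : lam / n ∈ Set.Icc (-C₀) C₀ := by
      rw [abs_lt] at hc
      exact ⟨hc.1.le, hc.2.le⟩
    obtain ⟨ξ, hξt, hξ⟩ : ∃ ξ ∈ t, lam / n ∈ Set.Ioo (A ξ) (B ξ) := by
      have h7 := ht hmem
      rw [Set.mem_iUnion₂] at h7
      obtain ⟨ξ, h8, h9⟩ := h7
      exact ⟨ξ, h8, h9⟩
    have hnξ : N ξ ≤ n := (Finset.le_sup (f := N) hξt).trans hnt
    obtain ⟨u, ud, g1, g2, g3, g4, g5⟩ := hN ξ n hnξ (lam / n) hξ
    have hcancel : (n : ℝ) * (lam / n) = lam := by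
      field_simp
    rw [hcancel] at g3
    have hle : Real.exp (-E ξ * n) ≤ Real.exp (-(e * n)) := by
      apply Real.exp_le_exp.2
      have := mul_le_mul_of_nonneg_right (het ξ hξt) hn0.le
      linarith
    exact ⟨u, ud, g1, g2, fun τ hτ => ⟨(g3 τ hτ).1.trans hle, (g3 τ hτ).2.trans hle⟩, g4, g5⟩

end Pool.Agent.Q285.SL
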