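import Pool.Agent.Q260.SL.Stm2
import Pool.Agent.Q285.DJ.GL

/-!
# Project SL (helper260), job GA: the global form for all values
-/

set_option autoImplicit false

namespace Pool.Agent.Q285.SL

open Complex Filter Topology Metric Set
open Pool.Agent.Q260.SL
open Pool.Agent.H24R2.JP (HH XX Om)
open Pool.Agent.Q260.DJ (Cl NZ Ok EE AlmostFree)
open Pool.Agent.Q285.DJ (zeta_iff fin_shift fin_iff)
open Pool.Agent.H24R2.JP.B1h (XX_diff XX_conj)

/-- the solutions of `ζ^(k) = a` in the upper half plane are the zeros of `Zk k + b` -/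
theorem val_iff (h2 : S_ZA) (k : ℕ) (a w : ℂ) (hw : 0 < w.im) :
    iteratedDeriv k riemannZeta w = a ↔
      Za k ((-1) ^ (k + 1) * (starRingEnd ℂ) a) (1 / 2 - (starRingEnd ℂ) w) = 0 := by
  have hh : ((1 / 2 : ℂ)).im = 0 := by norm_num
  have him : 0 < (1 / 2 - (starRingEnd ℂ) w : ℂ).im := by
    rw [Complex.sub_im, hh, Complex.conj_im]
    linarith
  have hw1 : w ≠ 1 := by
    rintro rfl
    simp at hw
  have e1 := (h2.1 k _ him).2.2
  have e2 := h2.2.2 k w hw1
  have e3 : (1 / 2 - (1 / 2 - (starRingEnd ℂ) w) : ℂ) = (starRingEnd ℂ) w := by ring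
  rw [e3, e2] at e1
  unfold Za
  rw [e1, pow_succ]
  have e4 : ((-1 : ℂ)) ^ k * (starRingEnd ℂ) (iteratedDeriv k riemannZeta w) +
      (-1) ^ k * -1 * (starRingEnd ℂ) a =
      (-1 : ℂ) ^ k * (starRingEnd ℂ) (iteratedDeriv k riemannZeta w - a) := by
    rw [map_sub]
    ring
  rw [e4, mul_eq_zero]
  constructor
  · intro h
    right
    rw [h, sub_self, map_zero]
  · rintro (h | h)
    · exact absurd h (pow_ne_zero _ (by norm_num))
    · rw [map_eq_zero] at h
      exact sub_eq_zero.1 h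

/-- the local form -/
theorem local_form (h1 : S_DIA) (h2 : S_ZA) (k : ℕ) (a : ℂ) (ε : ℝ) (hε : 0 < ε) : ∃ C : ℝ,
    (∀ (ρ : ℂ) (σ : ℝ), riemannZeta ρ = 0 → C ≤ ρ.im → 1 / 2 ≤ σ → σ + ε ≤ ρ.re →
      ∃ w : ℂ, iteratedDeriv k riemannZeta w = a ∧ w.re < 1 - σ ∧ |w.im - ρ.im| ≤ C) ∧
    (∀ (w : ℂ) (σ : ℝ), iteratedDeriv k riemannZeta w = a → C ≤ w.im → 1 / 2 ≤ σ → w.re ≤ 1 - σ - ε →
      ∃ ρ : ℂ, riemannZeta ρ = 0 ∧ σ < ρ.re ∧ |ρ.im - w.im| ≤ C) := by
  have hh : ((1 / 2 : ℂ)).re = 1 / 2 := by norm_num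
  have hi : ((1 / 2 : ℂ)).im = 0 := by norm_num
  obtain ⟨C, T0, hC, hT0, d1, d2⟩ := h1 k ((-1) ^ (k + 1) * (starRingEnd ℂ) a) ε hε
  refine ⟨C + T0, ?_, ?_⟩
  · intro ρ σ hρ hρC hσ hσρ
    have hX := (zeta_iff (s := ρ) (by linarith)).1 hρ
    obtain ⟨w, hw1, hw2, hw3, hw4⟩ := d1 (ρ - 1 / 2) (σ - 1 / 2) hX
      (by rw [Complex.sub_im, hi]; linarith) (by linarith)
      (by rw [Complex.sub_re, hh]; linarith)
    rw [Complex.sub_im, hi, sub_zero] at hw4
    have h3 := (abs_le.1 hw4).1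
    refine ⟨1 / 2 - (starRingEnd ℂ) w, ?_, ?_, ?_⟩
    · rw [val_iff h2]
      · have : (1 / 2 - (starRingEnd ℂ) (1 / 2 - (starRingEnd ℂ) w) : ℂ) = w := by
          rw [map_sub, Complex.conj_conj]
          have : (starRingEnd ℂ) (1 / 2 : ℂ) = 1 / 2 := by
            rw [map_div₀, map_one, Complex.conj_ofNat]
          rw [this]
          ring
        rw [this]
        exact hw1
      · rw [Complex.sub_im, hi, Complex.conj_im]
        linarith
    · rw [Complex.sub_re, hh, Complex.conj_re]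
      linarith
    · rw [Complex.sub_im, hi, Complex.conj_im]
      rw [zero_sub, neg_neg]
      linarith
  · intro w σ hw hwC hσ hwσ
    have hwp : 0 < w.im := by linarith
    have hZ := (val_iff h2 k a w hwp).1 hw
    obtain ⟨z, hz1, hz2, hz3⟩ := d2 (1 / 2 - (starRingEnd ℂ) w) (σ - 1 / 2) hZ
      (by rw [Complex.sub_im, hi, Complex.conj_im]; linarith) (by linarith)
      (by rw [Complex.sub_re, hh, Complex.conj_re]; linarith)
    rw [Complex.sub_im, hi, Complex.conj_im, zero_sub, neg_neg] at hz3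
    have hre : (z + 1 / 2 : ℂ).re = z.re + 1 / 2 := by rw [Complex.add_re, hh]
    refine ⟨z + 1 / 2, ?_, by rw [hre]; linarith, ?_⟩
    · rw [zeta_iff (by rw [hre]; linarith), add_sub_cancel_right]
      exact hz1
    · rw [Complex.add_im, hi, add_zero]
      linarith

theorem zeta_conj (h2 : S_ZA) {s : ℂ} (h : riemannZeta s = 0) :
    riemannZeta ((starRingEnd ℂ) s) = 0 := by
  have hs : s ≠ 1 := by
    rintro rfl
    exact riemannZeta_one_ne_zero h
  have := h2.2.2 0 s hs
  rw [iteratedDeriv_zero] at this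
  rw [this, h, map_zero]

theorem t_GA (h1 : S_ZA) (h2 : S_DIA) : S_GA := by
  intro k a
  have hi : ((1 / 2 : ℂ)).im = 0 := by norm_num
  have hh : ((1 / 2 : ℂ)).re = 1 / 2 := by norm_num
  refine ⟨fun θ hθ => ⟨⟨?_, ?_⟩, ?_⟩, fun ε hε => local_form h2 h1 k a ε hε⟩
  · intro hL ε hε
    obtain ⟨T, hT⟩ := hL (ε / 3) (by linarith)
    obtain ⟨C, d1, -⟩ := local_form h2 h1 k a (ε / 3) (by linarith)
    have key : ∀ s : ℂ, |T| + |C| + |C| ≤ s.im → θ + ε < s.re → riemannZeta s ≠ 0 := by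
      intro s hs1 hs2 hs3
      obtain ⟨w, hw1, hw2, hw3⟩ := d1 s (θ + ε / 3) hs3
        (by linarith [le_abs_self C, abs_nonneg T, abs_nonneg C]) (by linarith) (by linarith)
      have h3 := (abs_le.1 hw3).1
      refine hT w ?_ (by linarith) (sub_eq_zero.2 hw1)
      have h4 := le_abs_self w.im
      linarith [le_abs_self C, le_abs_self T, abs_nonneg C]
    refine ⟨|T| + |C| + |C| + 1, fun s hs1 hs2 hs3 => ?_⟩
    rcases le_total 0 s.im with h | h
    · rw [abs_of_nonneg h] at hs1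
      exact key s (by linarith) hs2 hs3
    · rw [abs_of_nonpos h] at hs1
      exact key ((starRingEnd ℂ) s) (by rw [Complex.conj_im]; linarith)
        (by rw [Complex.conj_re]; exact hs2) (zeta_conj h1 hs3)
  · intro hR ε hε
    obtain ⟨T, hT⟩ := hR (ε / 3) (by linarith)
    have key : ∀ b : ℂ, ∃ T' : ℝ, ∀ s : ℂ, T' ≤ s.im → s.re < 1 - θ - ε →
        iteratedDeriv k riemannZeta s ≠ b := by
      intro b
      obtain ⟨C, -, d2⟩ := local_form h2 h1 k b (ε / 3) (by linarith)
      refine ⟨|T| + |C| + |C|, fun s hs1 hs2 hs3 => ?_⟩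
      obtain ⟨w, hw1, hw2, hw3⟩ := d2 s (θ + ε / 3) hs3
        (by linarith [le_abs_self C, abs_nonneg T, abs_nonneg C]) (by linarith) (by linarith)
      have h3 := (abs_le.1 hw3).1
      refine hT w ?_ (by linarith) hw1
      have h4 := le_abs_self w.im
      linarith [le_abs_self C, le_abs_self T, abs_nonneg C]
    obtain ⟨T1, hT1⟩ := key a
    obtain ⟨T2, hT2⟩ := key ((starRingEnd ℂ) a)
    refine ⟨max (max T1 T2) 1, fun s hs1 hs2 hs3 => ?_⟩
    have g1 : T1 ≤ |s.im| := ((le_max_left _ _).trans (le_max_left _ _)).trans hs1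
    have g2 : T2 ≤ |s.im| := ((le_max_right _ _).trans (le_max_left _ _)).trans hs1
    have g3 : 1 ≤ |s.im| := (le_max_right _ _).trans hs1
    have hs4 : iteratedDeriv k riemannZeta s = a := sub_eq_zero.1 hs3
    rcases le_total 0 s.im with h | h
    · rw [abs_of_nonneg h] at g1
      exact hT1 s g1 hs2 hs4
    · rw [abs_of_nonpos h] at g2 g3
      have hsne : s ≠ 1 := by
        rintro rfl
        simp at g3
        linarith
      refine hT2 ((starRingEnd ℂ) s) (by rw [Complex.conj_im]; exact g2)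
        (by rw [Complex.conj_re]; exact hs2) ?_
      rw [h1.2.2 k s hsne, hs4]
  · have hXs : ∀ z, XX z = 0 → |z.re| ≤ 1 / 2 := by
      intro z hz
      rw [abs_le]
      have h3 := Pool.Agent.H24R2.JP.Zer.re_le z hz
      have h4 := Pool.Agent.H24R2.JP.Zer.re_le (-z) (by
        rw [Pool.Agent.H24R2.JP.Zer.XX_even]
        exact hz)
      rw [Complex.neg_re] at h4
      constructor <;> linarith
    have eB : ∀ ε : ℝ, 0 < ε → ({s : ℂ | θ + ε < s.re ∧ riemannZeta s = 0}.Finite ↔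
        ∃ T : ℝ, ∀ z : ℂ, XX z = 0 → T ≤ z.im → z.re ≤ θ + ε - 1 / 2) := by
      intro ε hε
      rw [fin_shift (G := XX), fin_iff XX_diff XX_conj hXs]
      intro s hs
      exact zeta_iff (by linarith)
    constructor
    · intro hR ε hε
      rw [eB ε hε]
      obtain ⟨T, hT⟩ := hR ε hε
      refine ⟨T, fun z hz hzT => ?_⟩
      by_contra hcon
      push Not at hcon
      have hre : (z + 1 / 2 : ℂ).re = z.re + 1 / 2 := by rw [Complex.add_re, hh]
      refine hT (z + 1 / 2) ?_ (by rw [hre]; linarith) ?_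
      · rw [Complex.add_im, hi, add_zero]
        exact hzT.trans (le_abs_self _)
      · rw [zeta_iff (by rw [hre]; linarith), add_sub_cancel_right]
        exact hz
    · intro hA ε hε
      obtain ⟨T, hT⟩ := (eB ε hε).1 (hA ε hε)
      refine ⟨T, fun s hs1 hs2 hs3 => ?_⟩
      have hX : XX (s - 1 / 2) = 0 := (zeta_iff (by linarith)).1 hs3
      rcases le_total 0 s.im with h | h
      · rw [abs_of_nonneg h] at hs1
        have := hT _ hX (by rw [Complex.sub_im, hi, sub_zero]; exact hs1)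
        rw [Complex.sub_re, hh] at this
        linarith
      · rw [abs_of_nonpos h] at hs1
        have hX2 : XX ((starRingEnd ℂ) (s - 1 / 2)) = 0 := by
          rw [XX_conj, hX, map_zero]
        have := hT _ hX2 (by rw [Complex.conj_im, Complex.sub_im, hi, sub_zero]; exact hs1)
        rw [Complex.conj_re, Complex.sub_re, hh] at this
        linarith

end Pool.Agent.Q285.SL
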